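import Pool.Agent.H98.PW.Stmts

/-!
# PW: module RNG

The ring of functions modulo `p ^ r` is small.
-/

set_option autoImplicit false

namespace H85PW

open Finset

section span

variable {n : ℕ} {A : Type*} [CommRing A] (N r : ℕ) [Algebra (ZMod N) A]

/-- monomials in the variables of `J'` of degree `< r` in each variable -/
def gen (J' : Finset (Fin n)) (f : Fin n → A) (v : ↥J' → Fin r) : A :=
  ∏ j : ↥J', f j ^ (v j : ℕ)

/-- their span -/
def M (J' : Finset (Fin n)) (f : Fin n → A) : Submodule (ZMod N) A :=
  Submodule.span (ZMod N) (Set.range (gen r J' f))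

variable {N r}

lemma intCast_smul_mem (J' : Finset (Fin n)) (f : Fin n → A) (c : ℤ) {a : A}
    (ha : a ∈ M N r J' f) : (c : A) * a ∈ M N r J' f := by
  rw [← zsmul_eq_mul]
  exact (M N r J' f).toAddSubgroup.zsmul_mem ha c

lemma mono_mem (J' : Finset (Fin n)) (f : Fin n → A) (g : Fin n → MvPolynomial (Fin n) ℤ)
    (c : Fin n → Fin n → ℤ)
    (hz : ∀ u : Fin n → ℕ, r ≤ ∑ l, u l → ∏ l, f l ^ u l = 0)
    (hg : ∀ k, ∀ v ∈ (g k).support, 2 ≤ ∑ l, v l)
    (hlin : ∀ k, k ∉ J' → f k = ∑ j ∈ J', (c k j : A) * f j + MvPolynomial.aeval f (g k)) :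
    ∀ m : ℕ, ∀ s : ℕ, ∀ u : Fin n → ℕ, r ≤ ∑ l, u l + m → ∑ l ∈ univ \ J', u l = s →
      ∏ l, f l ^ u l ∈ M N r J' f := by
  intro m
  induction m with
  | zero =>
    intro s u h1 _
    rw [hz u (by simpa using h1)]
    exact Submodule.zero_mem _
  | succ m ihm =>
    intro s
    induction s with
    | zero =>
      intro u h1 h2
      by_cases hr : r ≤ ∑ l, u l
      · rw [hz u hr]
        exact Submodule.zero_mem _
      push Not at hr
      have hu : ∀ l, l ∉ J' → u l = 0 := by
        intro l hl
        have := (Finset.sum_eq_zero_iff.1 h2) l (by simp [hl])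
        exact this
      have hlt : ∀ l, u l < r := fun l =>
        lt_of_le_of_lt (Finset.single_le_sum (f := u) (fun _ _ => Nat.zero_le _) (mem_univ l)) hr
      have hprod : ∏ l, f l ^ u l = gen r J' f (fun j => ⟨u j, hlt j⟩) := by
        unfold gen
        rw [← Finset.prod_subset (Finset.subset_univ J')]
        · exact (Finset.prod_coe_sort J' (fun l => f l ^ u l)).symm
        · intro l _ hl
          rw [hu l hl, pow_zero]
      rw [hprod]
      exact Submodule.subset_span ⟨_, rfl⟩
    | succ s ihs =>
      intro u h1 h2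
      obtain ⟨k, hk, hk0⟩ : ∃ k, k ∉ J' ∧ u k ≠ 0 := by
        by_contra hcon
        push Not at hcon
        have : ∑ l ∈ univ \ J', u l = 0 :=
          Finset.sum_eq_zero fun l hl => hcon l (by simpa using hl)
        omega
      set u' : Fin n → ℕ := Function.update u k (u k - 1) with hu'
      have hprod : ∏ l, f l ^ u l = (∏ l, f l ^ u' l) * f k := by
        rw [← Finset.mul_prod_erase univ (fun l => f l ^ u l) (mem_univ k),
          ← Finset.mul_prod_erase univ (fun l => f l ^ u' l) (mem_univ k)]
        have e1 : ∏ l ∈ univ.erase k, f l ^ u' l = ∏ l ∈ univ.erase k, f l ^ u l := by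
          refine Finset.prod_congr rfl fun l hl => ?_
          rw [hu', Function.update_of_ne (Finset.ne_of_mem_erase hl)]
        have e2 : f k ^ u k = f k ^ u' k * f k := by
          rw [hu', Function.update_self, ← pow_succ]
          congr 1
          omega
        rw [e1, e2]
        ring
      have hsum : ∑ l, u l = ∑ l, u' l + 1 := by
        rw [← Finset.add_sum_erase univ u (mem_univ k),
          ← Finset.add_sum_erase univ u' (mem_univ k)]
        have e1 : ∑ l ∈ univ.erase k, u' l = ∑ l ∈ univ.erase k, u l := by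
          refine Finset.sum_congr rfl fun l hl => ?_
          rw [hu', Function.update_of_ne (Finset.ne_of_mem_erase hl)]
        have e2 : u' k = u k - 1 := by rw [hu', Function.update_self]
        rw [e1, e2]
        omega
      have hout : ∑ l ∈ univ \ J', u' l = s := by
        have hkm : k ∈ univ \ J' := by simp [hk]
        have e0 : ∑ l ∈ univ \ J', u l = ∑ l ∈ univ \ J', u' l + 1 := by
          rw [← Finset.add_sum_erase (univ \ J') u hkm,
            ← Finset.add_sum_erase (univ \ J') u' hkm]
          have e1 : ∑ l ∈ (univ \ J').erase k, u' l = ∑ l ∈ (univ \ J').erase k, u l := by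
            refine Finset.sum_congr rfl fun l hl => ?_
            rw [hu', Function.update_of_ne (Finset.ne_of_mem_erase hl)]
          have e2 : u' k = u k - 1 := by rw [hu', Function.update_self]
          rw [e1, e2]
          omega
        omega
      have hadd : ∀ w : Fin n → ℕ,
          (∏ l, f l ^ u' l) * ∏ l, f l ^ w l = ∏ l, f l ^ (u' + w) l := by
        intro w
        rw [← Finset.prod_mul_distrib]
        exact Finset.prod_congr rfl fun l _ => by rw [Pi.add_apply, pow_add]
      rw [hprod, hlin k hk, mul_add]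
      refine Submodule.add_mem _ ?_ ?_
      · rw [Finset.mul_sum]
        refine Submodule.sum_mem _ fun j hj => ?_
        have e1 : (∏ l, f l ^ u' l) * ((c k j : A) * f j)
            = (c k j : A) * ∏ l, f l ^ (u' + (Pi.single j 1 : Fin n → ℕ)) l := by
          rw [← hadd]
          have e2 : ∏ l, f l ^ (Pi.single j 1 : Fin n → ℕ) l = f j := by
            rw [Finset.prod_eq_single j]
            · simp
            · intro l _ hl
              simp [Pi.single_eq_of_ne hl]
            · simp
          rw [e2]
          ring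
        rw [e1]
        refine intCast_smul_mem J' f _ (ihs _ ?_ ?_)
        · have e3 : ∑ l, (u' + (Pi.single j 1 : Fin n → ℕ)) l = ∑ l, u l := by
            rw [hsum]
            simp only [Pi.add_apply, Finset.sum_add_distrib]
            simp
          rw [e3]
          exact h1
        · simp only [Pi.add_apply, Finset.sum_add_distrib]
          rw [hout]
          have : ∑ l ∈ univ \ J', (Pi.single j 1 : Fin n → ℕ) l = 0 := by
            refine Finset.sum_eq_zero fun l hl => ?_
            have hl' : l ≠ j := by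
              rintro rfl
              exact (Finset.mem_sdiff.1 hl).2 hj
            exact Pi.single_eq_of_ne hl' _
          omega
      · rw [MvPolynomial.aeval_def, MvPolynomial.eval₂_eq', Finset.mul_sum]
        refine Submodule.sum_mem _ fun v hv => ?_
        have e1 : (∏ l, f l ^ u' l) * ((algebraMap ℤ A) ((g k).coeff v) * ∏ l, f l ^ v l)
            = (((g k).coeff v : ℤ) : A) * ∏ l, f l ^ (u' + ⇑v) l := by
          rw [← hadd]
          simp only [algebraMap_int_eq, eq_intCast]
          ring
        rw [e1]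
        refine intCast_smul_mem J' f _ (ihm _ _ ?_ rfl)
        have := hg k v hv
        simp only [Pi.add_apply, Finset.sum_add_distrib]
        omega

lemma aeval_mem (J' : Finset (Fin n)) (f : Fin n → A) (g : Fin n → MvPolynomial (Fin n) ℤ)
    (c : Fin n → Fin n → ℤ)
    (hz : ∀ u : Fin n → ℕ, r ≤ ∑ l, u l → ∏ l, f l ^ u l = 0)
    (hg : ∀ k, ∀ v ∈ (g k).support, 2 ≤ ∑ l, v l)
    (hlin : ∀ k, k ∉ J' → f k = ∑ j ∈ J', (c k j : A) * f j + MvPolynomial.aeval f (g k))
    (q : MvPolynomial (Fin n) ℤ) : MvPolynomial.aeval f q ∈ M N r J' f := by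
  rw [MvPolynomial.aeval_def, MvPolynomial.eval₂_eq']
  refine Submodule.sum_mem _ fun v _ => ?_
  simp only [algebraMap_int_eq, eq_intCast]
  refine intCast_smul_mem J' f _ (mono_mem J' f g c hz hg hlin r _ _ ?_ rfl)
  omega

lemma card_M [NeZero N] (J' : Finset (Fin n)) (f : Fin n → A) :
    Nat.card (M N r J' f) ≤ N ^ (r ^ J'.card) := by
  classical
  have h1 : M N r J' f = LinearMap.range (Fintype.linearCombination (ZMod N) (gen r J' f)) := by
    rw [Fintype.range_linearCombination]
    rfl
  have h2 : Nat.card (M N r J' f) ≤ Nat.card ((↥J' → Fin r) → ZMod N) := by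
    rw [h1]
    exact Nat.card_le_card_of_surjective
      (Fintype.linearCombination (ZMod N) (gen r J' f)).rangeRestrict
      (LinearMap.surjective_rangeRestrict _)
  refine h2.trans (le_of_eq ?_)
  rw [Nat.card_eq_fintype_card, Fintype.card_fun, Fintype.card_fun, ZMod.card, Fintype.card_fin,
    Fintype.card_coe]

end span

end H85PW

namespace Pool.PW

open Finset MvPolynomial

theorem rng_thm : S_RNG := by
  intro n r p J' ι _ w hp hr hw hlin
  classical
  have : NeZero (p ^ r) := ⟨pow_ne_zero _ hp.ne_zero⟩
  set f : Fin n → (ι → ZMod (p ^ r)) := fun k s => ((w s k : ℤ) : ZMod (p ^ r)) with hf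
  have hae : ∀ F : MvPolynomial (Fin n) ℤ,
      (fun s => ((eval (w s) F : ℤ) : ZMod (p ^ r))) = aeval f F := by
    intro F
    funext s
    have h1 : (aeval f F) s = aeval (fun k => f k s) F := by
      have h2 := MvPolynomial.map_aeval f (Pi.evalRingHom (fun _ : ι => ZMod (p ^ r)) s) F
      simp only [Pi.evalRingHom_apply] at h2
      rw [h2, MvPolynomial.aeval_def]
      rfl
    rw [h1, MvPolynomial.aeval_def, MvPolynomial.eval₂_eq', MvPolynomial.eval_eq']
    push_cast
    rfl
  choose c Q hQ hcQ using hlin
  have hz : ∀ u : Fin n → ℕ, r ≤ ∑ l, u l → ∏ l, f l ^ u l = 0 := by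
    intro u hu
    funext s
    have h1 : (∏ l, f l ^ u l) s = ((∏ l, w s l ^ u l : ℤ) : ZMod (p ^ r)) := by
      rw [Finset.prod_apply]
      push_cast
      rfl
    rw [h1]
    have h2 : ((p ^ r : ℕ) : ℤ) ∣ ∏ l, w s l ^ u l := by
      have h3 : (p : ℤ) ^ (∑ l, u l) ∣ ∏ l, w s l ^ u l := by
        rw [← Finset.prod_pow_eq_pow_sum]
        exact Finset.prod_dvd_prod_of_dvd _ _ fun l _ => pow_dvd_pow_of_dvd (hw s l) _
      push_cast
      exact (pow_dvd_pow _ hu).trans h3
    rw [(ZMod.intCast_zmod_eq_zero_iff_dvd _ _).2 h2]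
    rfl
  have hl : ∀ k, k ∉ J' → f k = ∑ j ∈ J', ((c k j : ℤ) : ι → ZMod (p ^ r)) * f j + aeval f (Q k) := by
    intro k _
    rw [← hae]
    funext s
    have h1 : ((w s k - ∑ j ∈ J', c k j * w s j - eval (w s) (Q k) : ℤ) : ZMod (p ^ r)) = 0 := by
      refine (ZMod.intCast_zmod_eq_zero_iff_dvd _ _).2 ?_
      push_cast
      exact hcQ k s
    simp only [Pi.add_apply, Finset.sum_apply, Pi.mul_apply, Pi.intCast_apply]
    push_cast at h1
    rw [hf]
    linear_combination h1
  have hmem : ∀ F : MvPolynomial (Fin n) ℤ, aeval f F ∈ H85PW.M (p ^ r) r J' f := fun F =>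
    H85PW.aeval_mem J' f Q c hz hQ hl F
  have hcard := H85PW.card_M (N := p ^ r) (r := r) J' f
  have : Finite (H85PW.M (p ^ r) r J' f) := inferInstance
  refine ⟨((H85PW.M (p ^ r) r J' f : Set (ι → ZMod (p ^ r))).toFinite).toFinset, ?_, ?_⟩
  · rw [← Set.ncard_eq_toFinset_card]
    refine le_trans (le_of_eq ?_) (hcard.trans (le_of_eq ?_))
    · exact (Nat.card_coe_set_eq _).symm
    · rw [← pow_mul]
  · intro F
    rw [Set.Finite.mem_toFinset, hae]
    exact hmem F

end Pool.PW
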